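import Pool.Agent.P.MP_f17f76_ag.Defs3

/-!
Freeness and rotundity in quotient form.
-/

namespace Pool.Agent.P.MP_f17f76_ag

namespace AbVar

variable {g N : ℕ}

/-- `M` is the differential of a surjective homomorphism `φ : A → A'`, that is
`φ (exp_A w) = exp_A' (M w)`. -/
def IsQuot {g' N' : ℕ} (A : AbVar g N) (A' : AbVar g' N')
    (M : (Fin g → ℂ) →ₗ[ℂ] (Fin g' → ℂ)) : Prop :=
  Function.Surjective M ∧ ∀ m ∈ A.Λ, M m ∈ A'.Λ

/-- `V` is free, in quotient form: for every surjective homomorphism `φ : A → A'` with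
differential `M` and `dim A' > 0`, neither `M (π₁ V)` nor `φ (π₂ V)` lies in a single point. -/
def FreeQ (A : AbVar g N) (V : Set ((Fin g → ℂ) × (Fin g → ℂ))) : Prop :=
  ∀ (g' N' : ℕ) (A' : AbVar g' N') (M : (Fin g → ℂ) →ₗ[ℂ] (Fin g' → ℂ)), A.IsQuot A' M → 0 < g' →
    ∀ c : Fin g' → ℂ, (¬ ∀ q ∈ V, M q.1 = c) ∧ ¬ ∀ q ∈ V, M q.2 - c ∈ A'.Λ

/-- `V` is rotund, in quotient form: for every surjective homomorphism `φ : A → A'` with
differential `M`, the image of `V` under `M × φ` has dimension at least `dim A'`; the cone adds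
one dimension. -/
def RotundQ (A : AbVar g N) (V : Set ((Fin g → ℂ) × (Fin g → ℂ))) : Prop :=
  ∀ (g' N' : ℕ) (A' : AbVar g' N') (M : (Fin g → ℂ) →ₗ[ℂ] (Fin g' → ℂ)), A.IsQuot A' M →
    ((g' + 1 : ℕ) : WithBot ℕ∞) ≤ A'.coneDim (Prod.map M M '' V)

end AbVar

end Pool.Agent.P.MP_f17f76_ag
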