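import Pool.Agent.P.MP_f17f76_ag.X.Quo

/-!
Zariski density of the exponential points, for all translates.
-/

namespace Pool.Agent.P.MP_f17f76_ag.AbVar

open MvPolynomial Filter Topology Module Set E N

variable {g N : ℕ} {A : AbVar g N} {V W : Set ((Fin g → ℂ) × (Fin g → ℂ))}

/-- A generic point over a countable field of definition that contains a given countable set. -/
theorem Irred.exists_generic' (hV : A.Irred V) {S₀ : Set ℂ} (h0 : S₀.Countable) :
    ∃ (S : Set ℂ) (z w : Fin g → ℂ), S₀ ⊆ S ∧ S.Countable ∧ A.Over (acl S) ∧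
      A.locI (acl S) (z, w) = A.idl V ∧ ∀ U U', A.IsLie U → A.IsLie U' →
        tdeg (A.idl (AbVar.sat₂ (A.perp U) (A.perp U') V)) =
          trd S (range (A.pr U z) ∪ range (A.crd (A.pr U' w))) + finrank ℂ (A.perp U) +
            finrank ℂ (A.perp U') + 1 := by
  obtain ⟨J, hJ⟩ := IsNoetherian.noetherian (R := MvPolynomial (Fin g ⊕ Fin N) ℂ) (A.idl V)
  obtain ⟨S, h1, h2, h3⟩ := A.exists_over (S := S₀ ∪ ⋃ p ∈ J, (p.coeffs : Set ℂ))
    (h0.union (J.countable_toSet.biUnion fun p _ => Finset.countable_toSet _))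
  obtain ⟨ι, _, Ω, Ψ₀, h4⟩ := hV.exists_isPar
  obtain ⟨y₀, h5, h6⟩ := exists_of_residual h4.isOpen h4.nonempty (h4.loc_residual
    (countable_acl h1) (hJ.ge.trans (Ideal.span_mono fun p hp => ⟨cf_of_coeffs
      ((subset_biUnion_of_mem (u := fun p : MvPolynomial _ ℂ => (p.coeffs : Set ℂ)) hp).trans
        (subset_union_right.trans h2)) (subset_acl _), hJ.le (Ideal.subset_span hp)⟩)))
  obtain ⟨n, x, ε, i, Ψ, e, -, -, -, -, h7, h8⟩ := h3.exists_loc h1 subset_rfl (Ψ₀ y₀)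
  rw [h6 h5] at h7 h8
  obtain ⟨y, h9, h10, h11⟩ := exists_of_residual h7.isOpen h7.nonempty
    ((ind_residual h1).and h7.generic_residual)
  refine ⟨S, (Ψ y).1, (Ψ y).2, subset_union_left.trans h2, h1, h3, (h8 y h9).2.2 h10,
    fun U U' hU hU' => ?_⟩
  rw [← h11 h9 _ _ hU.perp hU'.perp, (h8 y h9).1.range h3 subset_rfl h10,
    h3.finrank_sup_perp subset_rfl hU hU']

theorem xt_ne_zero {K : Subfield ℂ} (e : K →+* Cs) {a : ℂ} (h : a ∈ K) (h' : a ≠ 0) :
    xt e a ≠ 0 := by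
  rw [xt, dif_pos h]
  exact (_root_.map_ne_zero e).2 fun h1 => h' (congrArg Subtype.val h1)

theorem exists_scale {K : Subfield ℂ} {p : MvPolynomial (Fin g ⊕ Fin N) ℂ} (hp : Cf K p) (m : ℕ) :
    ∃ p', Cf K p' ∧ ∀ (z : Fin g → ℂ) (y : Fin N → ℂ),
      eval (Sum.elim z y) p' = eval (Sum.elim z ((m : ℂ) • y)) p := by
  refine ⟨_, ?_, fun z y => eval_scale z y m p⟩
  rw [← aeval_eq_bind₁]
  refine hp.aeval ?_
  rintro (i | j)
  exacts [cf_X _, (cf_C (natCast_mem _ m)).mul (cf_X _)]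

/-- The exponential points of a free rotund variety avoid any proper closed subset. -/
theorem exists_exp_ne (hV : A.Irred V) (hf : A.Free V) (hr : A.Rotund V)
    {D : MvPolynomial (Fin g ⊕ Fin N) ℂ} (hD : D ∉ A.idl V) :
    ∃ z, (z, z) ∈ A.zeroSet (A.idl V) ∧ ∃ t : ℂ, eval (Sum.elim z (t • A.θ z)) D ≠ 0 := by
  obtain ⟨W, h1, h2, h3, h4, hDW, h5⟩ := exists_cut hV hf hr hD
  obtain ⟨S, z, w, h0, h6, h7, h8, h9⟩ := h1.exists_generic' D.coeffs.countable_toSet
  have hb : ∀ {T : Set ℂ}, T.Finite → trd (acl S : Set ℂ) T = trd S T := trd_acl_base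
  have hfin : ∀ z w : Fin g → ℂ, (range z ∪ range (A.crd w)).Finite := fun z w => A.finite_cs (z, w)
  have hp : ∀ U, U ≠ ⊥ → A.perp U ≠ ⊤ := fun U h e => h (by rw [← A.perp_perp U, e, perp_top])
  have ht : finrank ℂ (⊤ : Sub g) = g := by simp
  obtain ⟨_, hs⟩ := s_step steps g
  refine (fun ⟨M, k⟩ => k (Gl.gs steps inits hs M.tight_top) : (∃ M : Model A, M.GS ⊤ → _) → _)
    ⟨⟨acl S, z, w, ⟨countable_acl h6, acl_acl S, le_rfl⟩, h7, fun U hU => ?_, ?_,
      fun U hU h0 h => ?_, fun U hU h0 h => ?_⟩, ?_⟩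
  · have h10 := (rotund_iff h1).1 h3 _ hU.perp
    have h11 := A.finrank_perp U
    rw [sat_eq, h9 U U hU hU] at h10
    rw [hb (hfin _ _)]
    omega
  · rw [← h8, h7.tdeg_locI h6 subset_rfl] at h5
    rw [hb (hfin _ _)]
    exact Nat.succ_injective h5
  · have h10 := ((free_iff h1).1 h2 _ hU.perp (hp U h0)).1
    have h11 := h9 U ⊥ hU isLie_bot
    rw [perp_bot, (trd_eq_zero_iff (hfin _ _)).2 (union_subset h (by
      rw [pr_bot]
      exact range_subset_iff.2 h7.crd_zero))] at h11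
    omega
  · have h10 := ((free_iff h1).1 h2 _ hU.perp (hp U h0)).2
    have h11 := h9 ⊥ U isLie_bot hU
    rw [perp_bot, (trd_eq_zero_iff (hfin _ _)).2 (union_subset (by
      rw [pr_bot]
      exact range_subset_iff.2 fun _ => zero_mem _) h)] at h11
    omega
  rintro ⟨e, he, t, h10⟩
  obtain ⟨J, hJ, h11⟩ := (Submodule.fg_span_iff_fg_span_finset_subset _).1
    (IsNoetherian.noetherian (R := MvPolynomial (Fin g ⊕ Fin N) ℂ) (A.locI (acl S) (z, w)))
  obtain ⟨τ, rfl⟩ := qs_surj t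
  simp only [pr_top] at h10
  set u := rep fun k => xt e (z k)
  have hv : ∀ i, Sum.elim z (A.crd w) i ∈ acl ((acl S : Set ℂ) ∪
      (range (A.pr ⊤ z) ∪ range (A.crd (A.pr ⊤ w)))) := fun i => mem_acl_of_mem (Or.inr (by
    rw [pr_top, pr_top, ← Sum.elim_range]
    exact ⟨i, rfl⟩))
  have hk : acl S ≤ acl ((acl S : Set ℂ) ∪ (range (A.pr ⊤ z) ∪ range (A.crd (A.pr ⊤ w)))) :=
    subset_union_left.trans (subset_acl _)
  have key : ∀ p, Cf (acl S) p → xt e (eval (Sum.elim z (A.crd w)) p) =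
      qs fun n => eval (Sum.elim (u n) (τ n • A.θ (u n))) p := fun p hp => by
    rw [xt_eval e co hk he hp hv, ← eval₂_vec]
    congr 1
    funext i
    cases i with
    | inl i => exact (congrFun (vec_rep fun k => xt e (z k)) i).symm
    | inr i => exact (h10 i).trans (map_mul qs _ _).symm
  have key' : ∀ p, Cf (acl S) p → eval (Sum.elim z (A.crd w)) p ≠ 0 →
      ∀ᶠ n in UF, eval (Sum.elim (u n) (τ n • A.θ (u n))) p ≠ 0 := fun p hp h => by
    rw [← qs_ne_zero, ← key p hp]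
    exact xt_ne_zero e (hp.eval_mem' hk hv) h
  have hc : Cf (acl S) D := cf_of_coeffs h0 (subset_acl _)
  obtain ⟨m, hm⟩ : ∃ m : ℕ, eval (Sum.elim z ((m : ℂ) • A.crd w)) D ≠ 0 := not_forall.1 fun h =>
    hDW (h8.le ((mem_locI hc).2 (cone_of_nat' (A.piv_inv_ne _) h)))
  obtain ⟨D', hc', hD'⟩ := exists_scale hc m
  have h17 := key' D' hc' (by rwa [hD'])
  obtain ⟨j, hj⟩ := exists_nrm_eq_one (A.ne_zero w)
  have h18 := key' _ (cf_X (Sum.inr j)) (by
    rw [eval_X, Sum.elim_inr, show A.crd w j = 1 from hj]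
    exact one_ne_zero)
  obtain ⟨n, h12, h13, h14⟩ := (h17.and (h18.and
    ((eventually_all_finset J).2 fun p hp => qs_eq_zero.1 ((key p (hJ hp).1).symm.trans (by
      rw [show eval (Sum.elim z (A.crd w)) p = 0 from (hJ hp).2 _, he 0 (zero_mem _),
        map_zero]))))).exists
  have h15 : τ n ≠ 0 := left_ne_zero_of_mul (by simpa using h13)
  refine ⟨u n, fun p hp s => ?_, m * τ n, by rwa [mul_smul, ← hD']⟩
  have h16 := A.idl_scale W (u n) (τ n • A.θ (u n)) (s * (τ n)⁻¹) (fun p hp =>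
    Ideal.span_le (I := RingHom.ker (eval _)).2 h14 (h11.le (h8.ge hp))) p (h4 hp)
  rwa [mul_smul, inv_smul_smul₀ h15] at h16

/-- The abelian variety with the embedding translated by `c`. -/
noncomputable def shift (A : AbVar g N) (c : Fin g → ℂ) : AbVar g N :=
  A.sub isLie_top (ContinuousLinearMap.id ℂ _) Function.injective_id (fun x => by simp) c

theorem cone_shift (c : Fin g → ℂ) (V : Set ((Fin g → ℂ) × (Fin g → ℂ))) :
    (A.shift c).cone {q | (q.1, c + q.2) ∈ V} = A.cone V := by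
  ext x
  refine ⟨fun ⟨q, h, t, e⟩ => ⟨_, h, t, e⟩, fun ⟨q, h, t, e⟩ => ⟨(q.1, q.2 - c), by simpa, t, ?_⟩⟩
  rw [e]
  change _ = Sum.elim q.1 (t • A.θ (c + (q.2 - c)))
  rw [add_sub_cancel]

theorem dense_shift {I : Set (MvPolynomial (Fin g ⊕ Fin N) ℂ)} (hV : A.Irred (A.zeroSet I))
    (hf : A.Free (A.zeroSet I)) (hr : A.Rotund (A.zeroSet I)) (c : Fin g → ℂ) :
    A.idl (A.zeroSet I ∩ {q | q.2 = q.1 + c}) = A.idl (A.zeroSet I) := by
  refine le_antisymm (fun D hD => by_contra fun h => ?_) (idl_anti inter_subset_left)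
  have h1 : (A.shift c).cone ((A.shift c).zeroSet I) = A.cone (A.zeroSet I) :=
    cone_shift (A := A) c (A.zeroSet I)
  have h4 : ∀ q ∈ A.zeroSet I, (q.1, q.2 - c) ∈ (A.shift c).zeroSet I := fun q hq => by
    change (q.1, c + (q.2 - c)) ∈ A.zeroSet I
    rwa [add_sub_cancel]
  have h5 : (A.shift c).Free ((A.shift c).zeroSet I) := fun L hL hL' a =>
    ⟨fun k => (hf L hL hL' a).1 fun q hq => k (q.1, q.2 - c) (h4 q hq),
      fun k => (hf L hL hL' (c + a)).2 fun q hq => by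
        rw [sub_add_eq_sub_sub]
        exact k _ (h4 q hq)⟩
  have h6 : (A.shift c).Rotund ((A.shift c).zeroSet I) := fun L hL => by
    have h2 : sat L ((A.shift c).zeroSet I) = {q | (q.1, c + q.2) ∈ sat L (A.zeroSet I)} := by
      ext q
      exact ⟨fun ⟨p, k1, k2, k3⟩ => ⟨(p.1, c + p.2), k1, k2, by simpa using k3⟩,
        fun ⟨p, k1, k2, k3⟩ => ⟨_, h4 p k1, k2, by rwa [sub_sub_eq_add_sub, add_comm]⟩⟩
    rw [h2, coneDim, cone_shift]
    exact hr L hL
  obtain ⟨z, h2, t, h3⟩ := exists_exp_ne (D := D) (by rwa [Irred, h1]) h5 h6 (by rwa [idl, h1])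
  rw [zeroSet_idl] at h2
  exact h3 (A.mem_idl.1 hD (z, c + z) ⟨h2, add_comm _ _⟩ t)

end Pool.Agent.P.MP_f17f76_ag.AbVar
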