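import Pool.Agent.P.MP_f17f76_ag.S.All
import Pool.Agent.P.MP_f17f76_ag.X.Defs

/-!
Noetherian induction, and necessity of rotundity.
-/

namespace Pool.Agent.P.MP_f17f76_ag.AbVar

open MvPolynomial Filter Topology Module Set E

variable {g N : ℕ} {A : AbVar g N} {V W : Set ((Fin g → ℂ) × (Fin g → ℂ))}

/-- The part of `W` on which `f` vanishes. -/
def cutBy (A : AbVar g N) (W : Set ((Fin g → ℂ) × (Fin g → ℂ)))
    (f : MvPolynomial (Fin g ⊕ Fin N) ℂ) : Set ((Fin g → ℂ) × (Fin g → ℂ)) :=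
  {q | q ∈ W ∧ ∀ t : ℂ, eval (Sum.elim q.1 (t • A.θ q.2)) f = 0}

theorem idl_lt_cutBy {f : MvPolynomial (Fin g ⊕ Fin N) ℂ} (hf : f ∉ A.idl W) :
    A.idl W < A.idl (A.cutBy W f) :=
  lt_of_le_of_ne (idl_anti fun _ h => h.1) fun e => hf (e ▸ A.mem_idl.2 fun _ h => h.2)

theorem idl_ind {C : Set ((Fin g → ℂ) × (Fin g → ℂ)) → Prop} (h0 : C ∅)
    (hu : ∀ V W, C V → C W → C (V ∪ W))
    (hp : ∀ W, A.Irred W → (∀ f ∉ A.idl W, C (A.cutBy W f)) → C W) (W) : C W := by
  induction hI : A.idl W using WellFoundedGT.induction generalizing W with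
  | ind I ih =>
    subst hI
    have h1 : ∀ f ∉ A.idl W, C (A.cutBy W f) := fun f hf => ih _ (idl_lt_cutBy hf) _ rfl
    by_cases h2 : A.Irred W
    · exact hp W h2 h1
    rcases Ideal.not_isPrime_iff.1 h2 with h3 | ⟨f, hf, h, hh, h3⟩
    · rwa [show W = ∅ from eq_empty_of_forall_notMem fun q hq => by
        simpa using A.mem_idl.1 ((Ideal.eq_top_iff_one _).1 h3) q hq 1]
    · have h4 : W = A.cutBy W f ∪ A.cutBy W h := by
        refine Subset.antisymm (fun q hq => ?_) (union_subset (fun _ h => h.1) fun _ h => h.1)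
        have h5 : cpoly q.1 (A.θ q.2) (f * h) = 0 := Polynomial.funext fun s => by
          rw [eval_cpoly, A.mem_idl.1 h3 q hq s, Polynomial.eval_zero]
        rw [map_mul, mul_eq_zero] at h5
        exact h5.imp (fun e => ⟨hq, fun t => by rw [← eval_cpoly, e, Polynomial.eval_zero]⟩)
          fun e => ⟨hq, fun t => by rw [← eval_cpoly, e, Polynomial.eval_zero]⟩
      rw [h4]
      exact hu _ _ (h1 f hf) (h1 h hh)

theorem tdeg_le_coneDim (hW : A.Irred W) (h : W ⊆ V) :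
    (tdeg (A.idl W) : WithBot ℕ∞) ≤ A.coneDim V :=
  (tdeg_le_krull (A.idl W) (hP := hW)).trans (ringKrullDim_le_of_surjective
    (Ideal.Quotient.factor (idl_anti h)) (Ideal.Quotient.factor_surjective _))

/-- The Hausdorff dimension is bounded by the algebraic dimension. -/
theorem dimH_le {n : ℕ} (h : ∀ W ⊆ V, A.Irred W → tdeg (A.idl W) ≤ n + 1) :
    dimH V ≤ (2 * n : ℕ) := by
  refine idl_ind (A := A) (C := fun W => W ⊆ V → dimH W ≤ (2 * n : ℕ)) (fun _ => by simp)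
    (fun W W' h1 h2 h3 => ?_) (fun W hW ih hWV => ?_) V subset_rfl
  · rw [dimH_union]
    exact max_le (h1 (subset_union_left.trans h3)) (h2 (subset_union_right.trans h3))
  obtain ⟨ι, _, D, hD, h1⟩ := A.exists_par hW
  have h2 : W ⊆ A.cutBy W D ∪ (W \ A.cutBy W D) := by
    rw [union_sdiff_self]
    exact subset_union_right
  refine (dimH_mono h2).trans ?_
  rw [dimH_union]
  refine max_le (ih D hD fun _ h => hWV h.1) (not_lt.1 fun h3 => ?_)
  obtain ⟨q, hq, h4⟩ := exists_mem_nhdsWithin_lt_dimH_of_lt_dimH h3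
  obtain ⟨t, ht⟩ : ∃ t : ℂ, eval (Sum.elim q.1 (t • A.θ q.2)) D ≠ 0 :=
    not_forall.1 fun h => hq.2 ⟨hq.1, h⟩
  obtain ⟨_, ε, Ψ, τ, κ, hε, h5, -, -, -, h6, rfl, h8⟩ := h1 q (A.subset_zeroSet_idl W hq.1) t ht
  refine (h4 (Ψ '' Metric.ball (κ q) ε) ?_).not_ge ?_
  · filter_upwards [self_mem_nhdsWithin, mem_nhdsWithin_of_mem_nhds h8,
      mem_nhdsWithin_of_mem_nhds (h6.continuousAt.eventually
        (Metric.ball_mem_nhds _ hε))] with q' h9 h10 h11
    exact ⟨_, h11, h10 (A.subset_zeroSet_idl W h9.1)⟩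
  · have h9 : ContDiffOn ℝ 1 Ψ (Metric.ball (κ q) ε) := fun y hy =>
      ((h5.an y hy).contDiffAt.restrict_scalars ℝ).contDiffWithinAt
    have h10 := h W hWV hW
    rw [h5.tdeg_eq] at h10
    refine (h9.dimH_image_le (convex_ball _ _) subset_rfl).trans
      ((dimH_mono (subset_univ _)).trans ?_)
    rw [Real.dimH_univ_eq_finrank, finrank_real_of_complex]
    exact Nat.cast_le.2 (by omega)

/-- If every translate of `V` meets the graph, then `V` is rotund. -/
theorem rotundQ_of (h : ∀ c, ∃ z, (z, z + c) ∈ V) : A.RotundQ V := by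
  intro g' N' A' M ⟨hM, _⟩
  obtain ⟨z, hz⟩ := h 0
  cases g' with
  | zero =>
    have h1 := A'.isPar_point (Prod.map M M (z, z + 0))
    refine le_trans ?_ (tdeg_le_coneDim h1.isPrime
      (singleton_subset_iff.2 (mem_image_of_mem _ hz)))
    rw [h1.tdeg_eq]
    simp
  | succ n =>
    refine not_lt.1 fun h1 => ?_
    have h2 := dimH_le (A := A') (V := Prod.map M M '' V) (n := n) fun W h2 h3 => by
      have := (tdeg_le_coneDim h3 h2).trans_lt h1
      exact Nat.lt_succ_iff.1 (by exact_mod_cast this)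
    let δ : ((Fin (n + 1) → ℂ) × (Fin (n + 1) → ℂ)) →L[ℂ] (Fin (n + 1) → ℂ) :=
      ContinuousLinearMap.snd ℂ _ _ - ContinuousLinearMap.fst ℂ _ _
    have h3 : univ ⊆ δ '' (Prod.map M M '' V) := fun x _ => by
      obtain ⟨c, rfl⟩ := hM x
      obtain ⟨z, hz⟩ := h c
      exact ⟨_, mem_image_of_mem _ hz, by simp [δ]⟩
    have h4 := ((dimH_mono h3).trans (δ.lipschitz.dimH_image_le _)).trans h2
    rw [Real.dimH_univ_eq_finrank, finrank_real_of_complex, finrank_fin_fun, Nat.cast_le] at h4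
    omega

end Pool.Agent.P.MP_f17f76_ag.AbVar
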