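import Pool.Agent.P.MP_f17f76_ag.X.Ind

/-!
The quotient form of rotundity implies the saturation form.
-/

namespace Pool.Agent.P.MP_f17f76_ag.AbVar

open MvPolynomial Filter Topology Module Set E

variable {g N : ℕ} {A : AbVar g N} {V W : Set ((Fin g → ℂ) × (Fin g → ℂ))} {U : Sub g}

/-- A multiple of the projector preserves the lattice. -/
theorem IsLie.exists_mul (hU : A.IsLie U) :
    ∃ n : ℕ, ∀ m ∈ A.Λ, ((n + 1 : ℕ) : ℂ) • A.pr U m ∈ A.Λ := by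
  obtain ⟨R, hR⟩ := hU.exists_bdd
  obtain ⟨R', hR'⟩ := hU.perp.exists_bdd
  let H : AddSubgroup A.Λ := A.Λ.toAddSubgroup.comap
    ((A.pr U).toAddMonoidHom.comp A.Λ.subtype.toAddMonoidHom)
  have h1 : Finite {m : A.Λ | ‖m.1‖ ≤ R + R'} :=
    ((A.finite_lattice (R + R')).preimage Subtype.val_injective.injOn).subset fun m hm => ⟨m.2, hm⟩
  have h2 : Finite (A.Λ ⧸ H) := Finite.of_surjective
    (fun m : {m : A.Λ | ‖m.1‖ ≤ R + R'} => (m.1 : A.Λ ⧸ H)) fun x => by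
      obtain ⟨m, rfl⟩ := QuotientAddGroup.mk_surjective x
      obtain ⟨a, ha, ha', h3⟩ := hR _ (A.pr_mem U m)
      obtain ⟨b, hb, hb', h4⟩ := hR' _ (A.sub_pr_mem U m)
      refine ⟨⟨m - ⟨a + b, add_mem ha hb⟩, ?_⟩, QuotientAddGroup.eq.2 ?_⟩
      · refine le_trans (le_of_eq ?_) ((norm_add_le _ _).trans (add_le_add h3 h4))
        congr 1
        simp only [AddSubgroupClass.coe_sub]
        abel
      · rw [neg_sub, sub_add_cancel]
        change A.pr U (a + b) ∈ A.Λ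
        rwa [map_add, A.pr_of_mem ha', A.pr_eq_zero_iff.2 hb', add_zero]
  have h3 : H.FiniteIndex := AddSubgroup.finiteIndex_of_finite_quotient
  obtain ⟨n, hn⟩ := Nat.exists_eq_succ_of_ne_zero h3.index_ne_zero
  refine ⟨n, fun m hm => ?_⟩
  have h4 : A.pr U (H.index • m) ∈ A.Λ := H.nsmul_index_mem ⟨m, hm⟩
  rwa [map_nsmul, hn, ← Nat.cast_smul_eq_nsmul ℂ] at h4

/-- Multiplication by a positive integer does not raise the dimension. -/
theorem tdeg_mul_le (hW : A.Irred W) (n : ℕ) :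
    tdeg (A.idl ((fun q => ((n + 1 : ℕ) : ℂ) • q) '' W)) ≤ tdeg (A.idl W) := by
  obtain ⟨S, z, w, h1, h2, h3, -⟩ := hW.exists_generic
  obtain ⟨t, ht⟩ : ∃ t, t ∉ acl (S ∪ A.cs (z, w)) := by_contra fun h => not_countable_univ
    ((countable_acl (h1.union (A.finite_cs (z, w)).countable)).mono fun t _ => by_contra fun h' =>
      h ⟨t, h'⟩)
  have hk : (acl S : Set ℂ) ⊆ acl (S ∪ A.cs (z, w)) := acl_mono subset_union_left
  have hz : range z ⊆ acl (S ∪ A.cs (z, w)) := fun _ h => mem_acl_of_mem (Or.inr (Or.inl h))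
  have hw : range (A.crd w) ⊆ acl (S ∪ A.cs (z, w)) := fun _ h => mem_acl_of_mem (Or.inr (Or.inr h))
  have hs : ∀ (n : ℕ) (w : Fin g → ℂ), ((n + 1 + 1 : ℕ) : ℂ) • w = ((n + 1 : ℕ) : ℂ) • w + w :=
    fun n w => by rw [Nat.cast_succ (n + 1), add_smul, one_smul]
  have h4 : A.locI (acl S) (((n + 1 : ℕ) : ℂ) • (z, w)) ≤
      A.idl ((fun q => ((n + 1 : ℕ) : ℂ) • q) '' W) := by
    refine Ideal.span_le.2 fun p hp => A.mem_idl.2 (forall_mem_image.2 fun q hq => ?_)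
    let r : ℂ → ℂ → Prop := fun a b => ∃ p, Cf (acl S) p ∧
      eval (Sum.elim z (t • A.crd w)) p = a ∧ eval (Sum.elim q.1 ((1 : ℂ) • A.θ q.2)) p = b
    have r0 : ∀ a, r 0 a → a = 0 := fun a ⟨p, k1, k2, k3⟩ => k3 ▸ A.mem_idl.1
      (h3.le ((mem_locI k1).2 (cone_of_nat' (A.piv_inv_ne _) fun n =>
        cone_of_trans (k1.mono hk) hz hw ht k2 n))) q hq 1
    have r1 : ∀ a ∈ acl S, r a a := fun a ha => ⟨C a, cf_C ha, eval_C _, eval_C _⟩
    have r2 : ∀ a b a' b', r a a' → r b b' → r (a + b) (a' + b') :=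
      fun _ _ _ _ ⟨p, k1, k2, k3⟩ ⟨p', k4, k5, k6⟩ =>
        ⟨p + p', k1.add k4, by rw [map_add, k2, k5], by rw [map_add, k3, k6]⟩
    have r3 : ∀ a b a' b', r a a' → r b b' → r (a * b) (a' * b') :=
      fun _ _ _ _ ⟨p, k1, k2, k3⟩ ⟨p', k4, k5, k6⟩ =>
        ⟨p * p', k1.mul k4, by rw [map_mul, k2, k5], by rw [map_mul, k3, k6]⟩
    have rn : ∀ m : ℕ, r m m := fun m => r1 _ (natCast_mem _ m)
    have r4 : ∀ j, r (((t * (piv (A.θ w))⁻¹) • A.θ w) j) (((1 : ℂ) • A.θ q.2) j) := fun j =>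
      ⟨X (Sum.inr j), cf_X _, by rw [eval_X, mul_smul]; rfl, eval_X _⟩
    have r5 : ∀ n : ℕ, ∃ s s' : ℂ, s' ≠ 0 ∧ ∀ j, r ((s • A.θ (((n + 1 : ℕ) : ℂ) • w)) j)
        ((s' • A.θ (((n + 1 : ℕ) : ℂ) • q.2)) j) := fun n => by
      induction n with
      | zero =>
        rw [zero_add, Nat.cast_one, one_smul ℂ w, one_smul ℂ q.2]
        exact ⟨_, 1, one_ne_zero, r4⟩
      | succ n ih =>
        obtain ⟨s, s', k1, k2⟩ := ih
        obtain ⟨s, s', -, k3, k4⟩ := h2.add_rel r r0 r1 r2 r3 k1 one_ne_zero k2 r4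
        exact ⟨s, s', k3, by rwa [hs, hs]⟩
    obtain ⟨s, s', k1, k2⟩ := r5 n
    refine cone_of_nat' k1 fun m => r0 _ ?_
    rw [← hp.2 (m * s), mul_smul]
    exact hp.1.rel r r1 r2 r3 (Sum.forall.2 ⟨fun i => r3 _ _ _ _ (rn _)
      ⟨X (Sum.inl i), cf_X _, eval_X _, eval_X _⟩, fun j => r3 _ _ _ _ (rn _) (k2 j)⟩)
  refine (tdeg_anti h4).trans ?_
  rw [← h3, h2.tdeg_locI h1 subset_rfl, h2.tdeg_locI h1 subset_rfl]
  refine Nat.succ_le_succ (trd_le (A.finite_cs _) (union_subset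
    (range_subset_iff.2 fun i => mul_mem (natCast_mem _ _) (hz ⟨i, rfl⟩)) ?_))
  change range (A.crd (((n + 1 : ℕ) : ℂ) • w)) ⊆ _
  clear h4
  induction n with
  | zero => simpa using hw
  | succ n ih => exact hs n w ▸ h2.crd_add_acl hk ih hw

/-- Saturating a variety inside `U × U` along the complement adds the full dimension. -/
theorem tdeg_add_le (hW : A.Irred W) (hU : A.IsLie U) (h : ∀ q ∈ W, q.1 ∈ U ∧ q.2 ∈ U) :
    tdeg (A.idl W) + 2 * finrank ℂ (A.perp U) ≤ tdeg (A.idl (sat₂ (A.perp U) (A.perp U) W)) := by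
  obtain ⟨ι, _, Ω, Ψ, h1⟩ := hW.exists_isPar
  obtain ⟨y, hy⟩ := h1.nonempty
  have h2 := h1.rank_le₂ (A.perp U) (A.perp U) hy
  have h3 : LinearMap.range (fderiv ℂ Ψ y).toLinearMap ≤ U.prod U := by
    rintro _ ⟨v, rfl⟩
    refine fderiv_mem_of_sub_mem' (h1.an y hy).differentiableAt (fderiv_mem_coset (q₀ := 0) hU
      (h1.an y hy).differentiableAt ?_) v
    filter_upwards [h1.isOpen.mem_nhds hy] with u hu p hp
    exact h1.mem_zeroSet hu p (idl_anti (W := sat₂ U U {0})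
      (fun q hq => ⟨0, rfl, by simpa using h q hq⟩) hp)
  have h4 := finrank_inf_add (LinearMap.range (fderiv ℂ Ψ y).toLinearMap)
    ((A.perp U).prod (A.perp U))
  have h5 : LinearMap.range (fderiv ℂ Ψ y).toLinearMap ⊓ (A.perp U).prod (A.perp U) = ⊥ :=
    eq_bot_iff.2 ((inf_le_inf_right _ h3).trans_eq (by
      rw [Submodule.prod_inf_prod, (A.isCompl_perp U).inf_eq_bot, Submodule.prod_bot]))
  rw [h5, finrank_bot, finrank_prod', LinearMap.finrank_range_of_inj (h1.imm y hy)] at h4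
  rw [h1.tdeg_eq]
  omega

/-- The quotient by the complement of `U`, up to isogeny. -/
theorem IsLie.exists_quot (hU : A.IsLie U) : ∃ (n : ℕ) (A' : AbVar (finrank ℂ U) N)
    (M : (Fin g → ℂ) →ₗ[ℂ] (Fin (finrank ℂ U) → ℂ)), A.IsQuot A' M ∧ (∀ x ∈ A.perp U, M x = 0) ∧
      ∀ V, A'.coneDim (Prod.map M M '' V) = A.coneDim ((fun q => ((n + 1 : ℕ) : ℂ) • q) ''
        (Prod.map (A.pr U) (A.pr U) '' V)) := by
  obtain ⟨n, hn⟩ := hU.exists_mul
  obtain ⟨l, β, rfl, hβ, hr⟩ := exists_lin_param U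
  obtain ⟨π, hπ⟩ := β.toLinearMap.exists_leftInverse_of_injective (LinearMap.ker_eq_bot.2 hβ)
  have h1 : ∀ u, π (β u) = u := fun u => LinearMap.congr_fun hπ u
  have h2 : ∀ x ∈ U, β (π x) = x := fun x hx => by
    obtain ⟨u, rfl⟩ := (hr x).1 hx
    rw [h1]
  let M := π ∘ₗ (((n + 1 : ℕ) : ℂ) • A.pr U)
  have h3 : ∀ x, β (M x) = ((n + 1 : ℕ) : ℂ) • A.pr U x := fun x =>
    h2 _ (U.smul_mem _ (A.pr_mem U x))
  refine ⟨n, A.sub hU β hβ hr 0, M, ⟨fun u => ⟨((n + 1 : ℕ) : ℂ)⁻¹ • β u, hβ ?_⟩, fun m hm => ?_⟩,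
    fun x hx => hβ ?_, fun V => ?_⟩
  · rw [h3, map_smul, smul_inv_smul₀ (Nat.cast_ne_zero.2 n.succ_ne_zero),
      A.pr_of_mem ((hr _).2 ⟨u, rfl⟩)]
  · rw [mem_sub_Λ, h3]
    exact hn m hm
  · rw [h3, A.pr_eq_zero_iff.2 hx, smul_zero, map_zero]
  · rw [← coneDim_sub hU hβ hr 0 0, image_image, image_image]
    simp only [Prod.map_fst, Prod.map_snd, zero_add, h3]
    rfl

theorem FreeQ.free (h : A.FreeQ V) : A.Free V := by
  intro L hL hL' c
  obtain ⟨U, hU, rfl⟩ : ∃ U, A.IsLie U ∧ A.perp U = L := ⟨_, hL.perp, A.perp_perp L⟩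
  obtain ⟨n, A', M, h1, h2, -⟩ := hU.exists_quot
  obtain ⟨h3, h4⟩ := h _ _ A' M h1 (Nat.pos_of_ne_zero fun e => hL' (by
    rw [Submodule.finrank_eq_zero.1 e, perp_bot])) (M c)
  refine ⟨fun k => h3 fun q hq => ?_, fun k => h4 fun q hq => ?_⟩
  · rw [← sub_eq_zero, ← map_sub, h2 _ (k q hq)]
  · obtain ⟨m, hm, k1⟩ := k q hq
    have k2 := h2 _ k1
    rw [map_sub, map_sub, sub_eq_zero] at k2
    exact k2 ▸ h1.2 m hm

theorem RotundQ.rotund (h : A.RotundQ V) (hV : A.Irred V) : A.Rotund V := by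
  refine (rotund_iff hV).2 fun L hL => ?_
  obtain ⟨U, hU, rfl⟩ : ∃ U, A.IsLie U ∧ A.perp U = L := ⟨_, hL.perp, A.perp_perp L⟩
  obtain ⟨n, A', M, h1, -, h2⟩ := hU.exists_quot
  have h4 := h _ _ A' M h1
  rw [h2] at h4
  have h5 : ∀ W ⊆ Prod.map (A.pr U) (A.pr U) '' V, ∀ T,
      Indep (A.idl ((fun q => ((n + 1 : ℕ) : ℂ) • q) '' W)) T →
        T.card + 2 * finrank ℂ (A.perp U) ≤ tdeg (A.idl (sat (A.perp U) V)) := by
    refine idl_ind (A := A) (fun _ T hT => ?_) (fun W W' k1 k2 k3 T hT => ?_) fun W hW _ k T hT => ?_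
    · exact absurd (hT 1 (A.mem_idl.2 (by simp))) one_ne_zero
    · by_contra k4
      obtain ⟨p, k5⟩ := not_forall.1 fun e => k4 (k1 (subset_union_left.trans k3) T e)
      obtain ⟨p', k6⟩ := not_forall.1 fun e => k4 (k2 (subset_union_right.trans k3) T e)
      rw [Classical.not_imp] at k5 k6
      refine mul_ne_zero k5.2 k6.2 (hT _ (A.mem_idl.2 fun q hq t => ?_))
      rw [image_union] at hq
      rw [map_mul, map_mul]
      exact mul_eq_zero.2 (hq.imp (fun e => A.mem_idl.1 k5.1 q e t) fun e => A.mem_idl.1 k6.1 q e t)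
    · refine (Nat.add_le_add_right (hT.le_tdeg.trans (tdeg_mul_le hW n)) _).trans
        ((tdeg_add_le hW hU fun q hq => ?_).trans (tdeg_anti (idl_anti ?_)))
      · obtain ⟨q, -, rfl⟩ := k hq
        exact ⟨A.pr_mem U _, A.pr_mem U _⟩
      · rintro q ⟨p, hp, k1, k2⟩
        obtain ⟨p, hp', rfl⟩ := k hp
        exact ⟨p, hp', by simpa using sub_mem k1 (A.sub_pr_mem U p.1),
          by simpa using sub_mem k2 (A.sub_pr_mem U p.2)⟩
  obtain ⟨P, -, k1, T, k2, k3, -⟩ := exists_prime_indep _ _ h4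
  have h6 := h5 _ subset_rfl T (k3.of_le k1)
  have h7 := A.finrank_perp U
  omega

end Pool.Agent.P.MP_f17f76_ag.AbVar
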